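import Pool.Agent.MWI.StmtsT

/-!
# Squad MWI (MP_23468a_al), row WLF: letters `y` on the left
-/

set_option autoImplicit false

namespace Pool.Agent.MWI.H64

open Pool.Agent.Helper14_MV Pool.Agent.Helper2_MV Pool.Agent.MWF Pool.Agent.MWI

theorem filter_rep (x : ℕ) : (List.replicate x 0).filter it = [] := by
  rw [List.filter_eq_nil_iff]
  intro c hc
  rw [List.eq_of_mem_replicate hc]
  simp [it]

theorem pA_filter (a b : ℕ → ℕ) (P : List ℕ) : (pA a b P).filter it = ts P := by
  induction P with
  | nil => rfl
  | cons i P ih =>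
    have e : pA a b (i :: P) = (List.replicate (a i) 0 ++ (3 * i + 2) ::
        (List.replicate (b i) 0 ++ [3 * i + 1])) ++ pA a b P := rfl
    have h2 : it (3 * i + 2) = false := by
      unfold it
      rw [decide_eq_false_iff_not]
      omega
    have h1 : it (3 * i + 1) = true := by
      unfold it
      rw [decide_eq_true_iff]
      omega
    rw [e, List.filter_append, ih, List.filter_append, filter_rep, List.nil_append,
      List.filter_cons_of_neg (by rw [h2]; exact Bool.false_ne_true), List.filter_append,
      filter_rep, List.nil_append, List.filter_cons_of_pos h1]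
    rfl

theorem pC_filter (a b : ℕ → ℕ) (Q : List ℕ) : (pC a b Q).filter it = ts Q := by
  induction Q with
  | nil => rfl
  | cons i Q ih =>
    have e : pC a b (i :: Q) = ((3 * i + 1) :: (List.replicate (a i) 0 ++ (3 * i + 2) ::
        List.replicate (b i) 0)) ++ pC a b Q := rfl
    have h2 : it (3 * i + 2) = false := by
      unfold it
      rw [decide_eq_false_iff_not]
      omega
    have h1 : it (3 * i + 1) = true := by
      unfold it
      rw [decide_eq_true_iff]
      omega
    rw [e, List.filter_append, ih, List.filter_cons_of_pos h1, List.filter_append, filter_rep,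
      List.nil_append, List.filter_cons_of_neg (by rw [h2]; exact Bool.false_ne_true), filter_rep]
    rfl

theorem pA_last (a b : ℕ → ℕ) (P : List ℕ) : ∀ l c, pA a b P = l ++ [c] → c % 3 = 1 := by
  intro l c h
  rcases List.eq_nil_or_concat P with rfl | ⟨P', i, rfl⟩
  · have e : pA a b [] = [] := rfl
    rw [e] at h
    simp at h
  · have e : pA a b (P' ++ [i]) = (pA a b P' ++ (List.replicate (a i) 0 ++ (3 * i + 2) ::
        List.replicate (b i) 0)) ++ [3 * i + 1] := by
      unfold pA
      rw [List.flatMap_append]
      simp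
    rw [List.concat_eq_append, e] at h
    have h1 := List.append_inj_right' h rfl
    simp only [List.cons.injEq, and_true] at h1
    omega

theorem pC_head (a b : ℕ → ℕ) (Q : List ℕ) : ∀ c l, pC a b Q = c :: l → c % 3 = 1 := by
  intro c l h
  cases Q with
  | nil =>
    have e : pC a b [] = [] := rfl
    rw [e] at h
    simp at h
  | cons i Q =>
    have e : pC a b (i :: Q) = (3 * i + 1) :: ((List.replicate (a i) 0 ++ (3 * i + 2) ::
        List.replicate (b i) 0) ++ pC a b Q) := rfl
    rw [e] at h
    simp only [List.cons.injEq] at h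
    omega

theorem mem_pA {a b : ℕ → ℕ} {P : List ℕ} (h : ∃ i ∈ P, a i + b i ≠ 0) : 0 ∈ pA a b P := by
  obtain ⟨i, hi, hne⟩ := h
  unfold pA
  refine List.mem_flatMap.2 ⟨i, hi, ?_⟩
  by_cases ha : a i = 0
  · have hb : b i ≠ 0 := by omega
    refine List.mem_append_right _ (List.mem_cons_of_mem _ (List.mem_append_left _ ?_))
    exact List.mem_replicate.2 ⟨hb, rfl⟩
  · exact List.mem_append_left _ (List.mem_replicate.2 ⟨ha, rfl⟩)

/-- the substitution -/
def sg (u v : List ℕ) (c : ℕ) : List ℕ := if c = 1 then u else if c = 4 then v else [c]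

theorem sg_rep (u v : List ℕ) (x : ℕ) :
    (List.replicate x 0).flatMap (sg u v) = List.replicate x 0 := by
  induction x with
  | zero => rfl
  | succ x ih =>
    rw [List.replicate_succ, List.flatMap_cons, ih]
    rfl

theorem core {n : ℕ} {β : FIC} (hn : 1 ≤ n) {x y : ℕ} (hy : 1 ≤ y)
    (hr : RR β [0, 1, 0, 4, 0] (List.replicate x 0 ++ 1 :: (List.replicate y 0 ++
      4 :: List.replicate (n + 1) 0))) (a b : ℕ → ℕ) (P Q h : List ℕ)
    (hP : ∃ i ∈ P, a i + b i ≠ 0) :
    ∃ w, RR β (bb a b P (0 :: (zz h ++ [0])) Q) w ∧ Bd P Q w := by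
  obtain ⟨A1, A2, hA⟩ := List.append_of_mem (mem_pA hP)
  have hA2 : A2 ≠ [] := by
    intro h0
    rw [h0] at hA
    have h1 := pA_last a b P A1 0 hA
    omega
  obtain ⟨A3, t, hA3⟩ : ∃ A3 t, A2 = A3 ++ [t] := by
    rcases List.eq_nil_or_concat A2 with h0 | ⟨A3, t, h0⟩
    · exact absurd h0 hA2
    · exact ⟨A3, t, by rw [h0, List.concat_eq_append]⟩
  have ht : t % 3 = 1 := by
    refine pA_last a b P (A1 ++ 0 :: A3) t ?_
    rw [hA, hA3]
    simp
  have hs := hr.sub (sg A2 (zz h))
  have e1 : ([0, 1, 0, 4, 0] : List ℕ).flatMap (sg A2 (zz h)) =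
      0 :: (A2 ++ 0 :: (zz h ++ [0])) := by
    simp [sg]
  have e2 : (List.replicate x 0 ++ 1 :: (List.replicate y 0 ++
      4 :: List.replicate (n + 1) 0)).flatMap (sg A2 (zz h)) =
      List.replicate x 0 ++ (A2 ++ (List.replicate y 0 ++ (zz h ++ List.replicate (n + 1) 0))) := by
    rw [List.flatMap_append, List.flatMap_cons, List.flatMap_append, List.flatMap_cons, sg_rep,
      sg_rep, sg_rep]
    rfl
  rw [e1, e2] at hs
  refine ⟨(A1 ++ (List.replicate x 0 ++ A2)) ++ ((List.replicate y 0 ++ (zz h ++
    List.replicate (n + 1) 0)) ++ pC a b Q), ?_, ?_⟩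
  · have h1 := ctx A1 (pC a b Q) hs
    have e3 : bb a b P (0 :: (zz h ++ [0])) Q =
        A1 ++ 0 :: (A2 ++ 0 :: (zz h ++ [0])) ++ pC a b Q := by
      unfold bb
      rw [hA]
      simp
    have e4 : (A1 ++ (List.replicate x 0 ++ A2)) ++ ((List.replicate y 0 ++ (zz h ++
        List.replicate (n + 1) 0)) ++ pC a b Q) = A1 ++ (List.replicate x 0 ++ (A2 ++
        (List.replicate y 0 ++ (zz h ++ List.replicate (n + 1) 0)))) ++ pC a b Q := by
      simp only [List.append_assoc]
    rw [e3, e4]
    exact h1
  · refine ⟨_, _, _, rfl, ?_, pC_filter a b Q, ?_, ?_, pC_head a b Q, ?_⟩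
    · have h1 := pA_filter a b P
      rw [hA, List.filter_append, List.filter_cons_of_neg (by simp [it])] at h1
      rw [List.filter_append, List.filter_append, filter_rep, List.nil_append]
      exact h1
    · intro c hc
      rcases List.mem_append.1 hc with hc | hc
      · rw [List.eq_of_mem_replicate hc]
        omega
      · rcases List.mem_append.1 hc with hc | hc
        · unfold zz at hc
          obtain ⟨i, -, rfl⟩ := List.mem_map.1 hc
          omega
        · rw [List.eq_of_mem_replicate hc]
          omega
    · intro l c hl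
      rw [hA3, ← List.append_assoc, ← List.append_assoc] at hl
      have h1 := List.append_inj_right' hl rfl
      simp only [List.cons.injEq, and_true] at h1
      rw [← h1]
      exact ht
    · intro h' he
      have h1 := congrArg (List.count 0) he
      have hz : ∀ g : List ℕ, (zz g).count 0 = 0 := by
        intro g
        rw [List.count_eq_zero]
        intro hm
        unfold zz at hm
        obtain ⟨i, -, h2⟩ := List.mem_map.1 hm
        omega
      rw [List.count_append, List.count_append, List.count_replicate_self,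
        List.count_replicate_self, hz, List.count_cons_self, List.count_append, hz,
        List.count_singleton_self] at h1
      omega

/-- **WLF** -/
theorem wlf : WlfStmt := by
  intro n β hT hJ a b P Q h m _ hP
  rcases hJ with hr | hr | hr
  · exact core hT.pos (x := 1) (y := 1) le_rfl hr a b P Q h hP
  · exact core hT.pos (x := 1) (y := n + 1) (by omega) hr a b P Q h hP
  · exact core hT.pos (x := n + 1) (y := n + 1) (by omega) hr a b P Q h hP

end Pool.Agent.MWI.H64
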